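import Pool.Agent.J4H78.HG.Stm

/-!
# Project HG of helper78, piece LAT: a sum over a lattice and the integral
-/

set_option autoImplicit false

open MeasureTheory Filter Topology

namespace Pool.Agent.J4H72.HG

open Pool.Agent.J4H78.HG

section

variable {ι : Type} [Fintype ι]

/-- the lattice points -/
noncomputable def LB (b : Module.Basis ι ℝ (ι → ℝ)) (m : ι → ℤ) : ι → ℝ := ∑ i, (m i : ℝ) • b i

theorem LB_add (b : Module.Basis ι ℝ (ι → ℝ)) (m m' : ι → ℤ) : LB b (m + m') = LB b m + LB b m' := by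
  unfold LB
  rw [← Finset.sum_add_distrib]
  refine Finset.sum_congr rfl fun i _ => ?_
  rw [Pi.add_apply, Int.cast_add, add_smul]

theorem LB_neg (b : Module.Basis ι ℝ (ι → ℝ)) (m : ι → ℤ) : LB b (-m) = - LB b m := by
  unfold LB
  rw [← Finset.sum_neg_distrib]
  refine Finset.sum_congr rfl fun i _ => ?_
  rw [Pi.neg_apply, Int.cast_neg, neg_smul]

theorem LB_sub (b : Module.Basis ι ℝ (ι → ℝ)) (m m' : ι → ℤ) : LB b (m - m') = LB b m - LB b m' := by
  rw [sub_eq_add_neg, LB_add, LB_neg, sub_eq_add_neg]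

/-- the finitely many relevant lattice points -/
theorem tsum_fin (b : Module.Basis ι ℝ (ι → ℝ)) {F : (ι → ℝ) → ℂ} {R : ℝ} (hsupp : ∀ x, R < ‖x‖ → F x = 0)
    (T : Finset (ι → ℤ)) (z : ι → ℝ) (hT : ∀ m, ‖z + LB b m‖ ≤ R → m ∈ T) :
    ∑' m, F (z + LB b m) = ∑ m ∈ T, F (z + LB b m) := by
  apply tsum_eq_sum
  intro m hm
  apply hsupp
  by_contra h
  exact hm (hT m (not_lt.1 h))

theorem tsum_shift (b : Module.Basis ι ℝ (ι → ℝ)) (F : (ι → ℝ) → ℂ) (z : ι → ℝ) (m₀ : ι → ℤ) :
    ∑' m, F (z + LB b m) = ∑' m, F ((z - LB b m₀) + LB b m) := by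
  rw [← (Equiv.subRight m₀).tsum_eq (fun m => F (z + LB b m))]
  refine tsum_congr fun m => ?_
  change F (z + LB b (m - m₀)) = _
  rw [LB_sub]
  congr 1
  abel

/-- unfolding over a fundamental domain -/
theorem unfold_int [DecidableEq ι] (b : Module.Basis ι ℝ (ι → ℝ)) {F : (ι → ℝ) → ℂ} (hF : Integrable F) :
    ∫ x, F x = ∑' m : ι → ℤ, ∫ x in ZSpan.fundamentalDomain b, F (LB b m + x) := by
  have hinv : VAddInvariantMeasure (Submodule.span ℤ (Set.range b)) (ι → ℝ) volume :=
    ⟨fun c s _ => measure_preimage_add volume (c : ι → ℝ) s⟩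
  rw [(ZSpan.isAddFundamentalDomain b volume).integral_eq_tsum'' F hF]
  set e : (ι → ℤ) ≃ Submodule.span ℤ (Set.range b) := (b.restrictScalars ℤ).equivFun.symm.toEquiv with he
  rw [← e.tsum_eq]
  refine tsum_congr fun m => ?_
  have h1 : ((e m : Submodule.span ℤ (Set.range b)) : ι → ℝ) = LB b m := by
    simp only [he]
    change (((b.restrictScalars ℤ).equivFun.symm m : Submodule.span ℤ (Set.range b)) : ι → ℝ) = LB b m
    rw [Module.Basis.equivFun_symm_apply]
    unfold LB
    rw [Submodule.coe_sum]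
    refine Finset.sum_congr rfl fun i _ => ?_
    rw [Submodule.coe_smul, Module.Basis.restrictScalars_apply, Int.cast_smul_eq_zsmul]
  have h2 : ∀ x : ι → ℝ, (e m) +ᵥ x = LB b m + x := by
    intro x
    rw [← h1]
    rfl
  simp only [h2]

end

theorem t_LAT : S_COV → S_CTL → S_LAT := by
  rintro ⟨C₁, hC₁, hcov⟩ ⟨C₂, hC₂, hctl⟩
  refine ⟨C₁ * C₂ * (max 1 C₁) ^ 4, by positivity, ?_⟩
  intro ι _ _ hι b l v hl hv hmin F Lp R hLp hR hLip hsupp
  classical
  -- the volume
  have hvol : volume (ZSpan.fundamentalDomain b) = ENNReal.ofReal v := by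
    rw [hv, ZSpan.volume_fundamentalDomain]
  have hv0 : 0 < v := by
    have h1 := ZSpan.measure_fundamentalDomain_ne_zero b (μ := (volume : Measure (ι → ℝ)))
    rw [hvol] at h1
    exact ENNReal.ofReal_pos.1 (pos_iff_ne_zero.2 h1)
  set D : Set (ι → ℝ) := ZSpan.fundamentalDomain b with hD
  have hDm : MeasurableSet D := ZSpan.fundamentalDomain_measurableSet b
  have hDb : Bornology.IsBounded D := ZSpan.fundamentalDomain_isBounded b
  have hDr : volume.real D = v := by
    rw [measureReal_def, hvol, ENNReal.toReal_ofReal hv0.le]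
  -- finiteness
  have hfin : ∀ (z : ι → ℝ) (r : ℝ), 0 ≤ r → {m : ι → ℤ | ‖z + LB b m‖ ≤ r}.Finite ∧
      ({m : ι → ℤ | ‖z + LB b m‖ ≤ r}.ncard : ℝ) ≤ C₂ * (1 + r / l) ^ 4 := by
    intro z r hr
    have h1 := hctl ι hι b l hl hmin (-z) r hr
    have h2 : {m : ι → ℤ | ‖z + LB b m‖ ≤ r} = {m : ι → ℤ | ‖-z - ∑ i, (m i : ℝ) • b i‖ ≤ r} := by
      ext m
      simp only [Set.mem_ofPred_eq]
      have h3 : -z - ∑ i, (m i : ℝ) • b i = -(z + LB b m) := by
        unfold LB
        abel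
      rw [h3, norm_neg]
    rw [h2]
    exact h1
  set ρ : ℝ := C₁ * v / l ^ 3 with hρ
  have hρ0 : 0 < ρ := by positivity
  set K : ℝ := Lp * ρ * (C₂ * (1 + (R + ρ) / l) ^ 4) with hK
  have hK0 : 0 ≤ K := by positivity
  -- near zero
  have hnear : ∀ z : ι → ℝ, ‖z‖ ≤ ρ → ‖(∑' m, F (z + LB b m)) - ∑' m, F (0 + LB b m)‖ ≤ K := by
    intro z hz
    obtain ⟨h1, h2⟩ := hfin 0 (R + ρ) (by positivity)
    have hT : ∀ m, ‖(0 : ι → ℝ) + LB b m‖ ≤ R + ρ → m ∈ h1.toFinset := fun m hm => by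
      rw [Set.Finite.mem_toFinset]; exact hm
    rw [tsum_fin b hsupp h1.toFinset z (fun m hm => hT m (by
        rw [zero_add]
        calc ‖LB b m‖ = ‖(z + LB b m) - z‖ := by rw [add_sub_cancel_left]
          _ ≤ ‖z + LB b m‖ + ‖z‖ := norm_sub_le _ _
          _ ≤ R + ρ := add_le_add hm hz)),
      tsum_fin b hsupp h1.toFinset 0 (fun m hm => hT m (hm.trans (by linarith))), ← Finset.sum_sub_distrib]
    refine (norm_sum_le _ _).trans ?_
    have h3 : ∀ m ∈ h1.toFinset, ‖F (z + LB b m) - F (0 + LB b m)‖ ≤ Lp * ρ := by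
      intro m _
      refine (hLip _ _).trans ?_
      have : z + LB b m - (0 + LB b m) = z := by abel
      rw [this]
      exact mul_le_mul_of_nonneg_left hz hLp
    refine (Finset.sum_le_sum h3).trans ?_
    rw [Finset.sum_const, nsmul_eq_mul, mul_comm]
    have h4 : ((h1.toFinset.card : ℕ) : ℝ) ≤ C₂ * (1 + (R + ρ) / l) ^ 4 := by
      rw [← Set.ncard_eq_toFinset_card _ h1]
      exact h2
    exact mul_le_mul_of_nonneg_left h4 (by positivity)
  -- everywhere
  have hall : ∀ z : ι → ℝ, ‖(∑' m, F (z + LB b m)) - ∑' m, F (0 + LB b m)‖ ≤ K := by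
    intro z
    obtain ⟨m₀, hm₀⟩ := hcov ι hι b l hl hmin z
    rw [tsum_shift b F z m₀]
    apply hnear
    rw [hρ, hv]
    exact hm₀
  -- integrability
  have hcont : Continuous F := by
    refine (LipschitzWith.of_dist_le_mul (K := ⟨Lp, hLp⟩) fun x y => ?_).continuous
    rw [dist_eq_norm, dist_eq_norm]
    exact hLip x y
  have hcs : HasCompactSupport F := by
    refine HasCompactSupport.intro (isCompact_closedBall (0 : ι → ℝ) R) fun x hx => hsupp x ?_
    rw [Metric.mem_closedBall, dist_zero_right, not_le] at hx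
    exact hx
  have hint : Integrable F := hcont.integrable_of_hasCompactSupport hcs
  -- the integral
  obtain ⟨r, hr⟩ := hDb.exists_norm_le
  obtain ⟨h1, -⟩ := hfin 0 (R + |r|) (by positivity)
  have hTmem : ∀ x ∈ D, ∀ m, ‖x + LB b m‖ ≤ R → m ∈ h1.toFinset := by
    intro x hx m hm
    rw [Set.Finite.mem_toFinset]
    change ‖(0 : ι → ℝ) + LB b m‖ ≤ R + |r|
    rw [zero_add]
    calc ‖LB b m‖ = ‖(x + LB b m) - x‖ := by rw [add_sub_cancel_left]
      _ ≤ ‖x + LB b m‖ + ‖x‖ := norm_sub_le _ _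
      _ ≤ R + |r| := add_le_add hm ((hr x hx).trans (le_abs_self r))
  have hI : ∫ x, F x = ∫ x in D, ∑ m ∈ h1.toFinset, F (x + LB b m) := by
    rw [unfold_int b hint, integral_finsetSum]
    · have h2 : ∀ m ∉ h1.toFinset, ∫ x in D, F (LB b m + x) = 0 := by
        intro m hm
        apply setIntegral_eq_zero_of_forall_eq_zero
        intro x hx
        apply hsupp
        by_contra hc
        rw [add_comm] at hc
        exact hm (hTmem x hx m (not_lt.1 hc))
      rw [tsum_eq_sum h2]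
      refine Finset.sum_congr rfl fun m _ => ?_
      refine setIntegral_congr_fun hDm fun x _ => ?_
      simp only [add_comm]
    · intro m _
      exact (hint.comp_add_right (LB b m)).integrableOn
  have hsum : ∀ x ∈ D, ∑ m ∈ h1.toFinset, F (x + LB b m) = ∑' m, F (x + LB b m) := fun x hx =>
    (tsum_fin b hsupp h1.toFinset x (hTmem x hx)).symm
  have hfinD : volume D < ⊤ := by rw [hvol]; exact ENNReal.ofReal_lt_top
  have hdiff : ‖(∫ x, F x) - (v : ℂ) * ∑' m, F (0 + LB b m)‖ ≤ K * v := by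
    have h2 : (∫ x, F x) - (v : ℂ) * ∑' m, F (0 + LB b m) =
        ∫ x in D, (∑ m ∈ h1.toFinset, F (x + LB b m)) - ∑' m, F (0 + LB b m) := by
      rw [integral_sub, ← hI, setIntegral_const, hDr, Complex.real_smul]
      · exact integrable_finsetSum _ fun m _ => (hint.comp_add_right (LB b m)).integrableOn
      · exact integrableOn_const (by exact hfinD.ne)
    rw [h2]
    have h3 := norm_setIntegral_le_of_norm_le_const (μ := volume) (s := D) (C := K)
      (f := fun x => (∑ m ∈ h1.toFinset, F (x + LB b m)) - ∑' m, F (0 + LB b m)) hfinD (fun x hx => by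
        rw [hsum x hx]
        exact hall x)
    rw [hDr] at h3
    exact h3
  have h00 : ∀ m : ι → ℤ, F (0 + LB b m) = F (∑ i, (m i : ℝ) • b i) := fun m => by
    rw [zero_add]
    rfl
  simp only [h00] at hdiff
  constructor
  · obtain ⟨h2, -⟩ := hfin 0 R hR
    refine summable_of_hasFiniteSupport (h2.subset fun m hm => ?_)
    change ‖(0 : ι → ℝ) + LB b m‖ ≤ R
    by_contra hc
    rw [not_le] at hc
    apply hm
    change F (∑ i, (m i : ℝ) • b i) = 0
    rw [← h00]
    exact hsupp _ hc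
  · have hvC : (v : ℂ) ≠ 0 := by exact_mod_cast hv0.ne'
    have h2 : ∑' m : ι → ℤ, F (∑ i, (m i : ℝ) • b i) - ((1 / v : ℝ) : ℂ) * ∫ x, F x =
        -(((1 / v : ℝ) : ℂ) * ((∫ x, F x) - (v : ℂ) * ∑' m : ι → ℤ, F (∑ i, (m i : ℝ) • b i))) := by
      push_cast
      field_simp
      ring
    rw [h2, norm_neg, norm_mul, Complex.norm_real, Real.norm_eq_abs, abs_of_pos (by positivity)]
    calc 1 / v * ‖(∫ x, F x) - (v : ℂ) * ∑' m : ι → ℤ, F (∑ i, (m i : ℝ) • b i)‖ ≤ 1 / v * (K * v) :=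
          mul_le_mul_of_nonneg_left hdiff (by positivity)
      _ = K := by field_simp
      _ ≤ C₁ * C₂ * (max 1 C₁) ^ 4 * Lp * (v / l ^ 3) * (1 + (R + v / l ^ 3) / l) ^ 4 := by
          have h4 : 1 + (R + ρ) / l ≤ max 1 C₁ * (1 + (R + v / l ^ 3) / l) := by
            have h5 : (1 : ℝ) ≤ max 1 C₁ := le_max_left _ _
            have h6 : C₁ ≤ max 1 C₁ := le_max_right _ _
            have h7 : ρ ≤ max 1 C₁ * (v / l ^ 3) := by
              rw [hρ, mul_div_assoc]
              exact mul_le_mul_of_nonneg_right h6 (by positivity)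
            have h8 : R ≤ max 1 C₁ * R := le_mul_of_one_le_left hR h5
            have h9 : (R + ρ) / l ≤ (max 1 C₁ * (R + v / l ^ 3)) / l := by
              apply div_le_div_of_nonneg_right _ hl.le
              linarith
            rw [mul_div_assoc] at h9
            linarith
          have h10 : (1 + (R + ρ) / l) ^ 4 ≤ (max 1 C₁ * (1 + (R + v / l ^ 3) / l)) ^ 4 :=
            pow_le_pow_left₀ (by positivity) h4 4
          rw [hK]
          calc Lp * ρ * (C₂ * (1 + (R + ρ) / l) ^ 4) ≤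
                Lp * ρ * (C₂ * (max 1 C₁ * (1 + (R + v / l ^ 3) / l)) ^ 4) := by gcongr
            _ = _ := by rw [hρ, mul_pow]; ring

end Pool.Agent.J4H72.HG
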