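import Pool.Agent.J4H78.HG.Stm

/-!
# Project HG of helper78, piece VPR: properties of the weight
-/

set_option autoImplicit false

open MeasureTheory Filter Topology

namespace Pool.Agent.J4H72.HG

open Pool.Agent.J4H78.HG

/-- the tent -/
noncomputable def tent (t : ℝ) : ℝ := max 0 (1 - |t|)

theorem tent_cont : Continuous tent := by
  unfold tent
  fun_prop

theorem tent_nonneg (t : ℝ) : 0 ≤ tent t := le_max_left _ _

theorem tent_le (t : ℝ) : tent t ≤ 1 := by
  unfold tent
  refine max_le zero_le_one ?_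
  have := abs_nonneg t
  linarith

theorem tent_zero {t : ℝ} (h : 1 ≤ |t|) : tent t = 0 := by
  unfold tent
  exact max_eq_left (by linarith)

theorem ph_exp (t : ℝ) : ph (Real.exp t) = tent t := by
  unfold ph tent
  rw [if_pos (Real.exp_pos t), Real.log_exp]

theorem ph_nonneg (r : ℝ) : 0 ≤ ph r := by
  unfold ph
  split_ifs
  · exact le_max_left _ _
  · exact le_rfl

/-- the integrand for `u ^ (1 / 4) = exp c` -/
noncomputable def fc (c : ℝ) (y : Fin 3 → ℝ) : ℝ :=
  tent (c + y 0) * tent (c + y 1) * tent (c + y 2) * tent (c - (y 0 + y 1 + y 2))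

theorem fc_cont (c : ℝ) : Continuous (fc c) := by
  unfold fc
  have h := tent_cont
  fun_prop

theorem fc_nonneg (c : ℝ) (y : Fin 3 → ℝ) : 0 ≤ fc c y := by
  unfold fc
  have h := tent_nonneg
  exact mul_nonneg (mul_nonneg (mul_nonneg (h _) (h _)) (h _)) (h _)

theorem V_eq {u c : ℝ} (h : u ^ (1 / 4 : ℝ) = Real.exp c) : V u = ∫ y : Fin 3 → ℝ, fc c y := by
  unfold V
  congr 1
  funext y
  rw [h, ← Real.exp_add, ← Real.exp_add, ← Real.exp_add, ← Real.exp_add, ph_exp, ph_exp, ph_exp, ph_exp]
  rfl

theorem V_zero {u : ℝ} (h : u ^ (1 / 4 : ℝ) ≤ 0) : V u = 0 := by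
  unfold V
  have h1 : ∀ t : ℝ, ph (u ^ (1 / 4 : ℝ) * Real.exp t) = 0 := by
    intro t
    unfold ph
    rw [if_neg]
    rw [not_lt]
    exact mul_nonpos_of_nonpos_of_nonneg h (Real.exp_pos t).le
  simp only [h1, mul_zero, integral_zero]

theorem fc_le (c : ℝ) (y : Fin 3 → ℝ) :
    fc c y ≤ (Set.Icc (fun _ : Fin 3 => -c - 1) (fun _ => -c + 1)).indicator (fun _ => (1 : ℝ)) y := by
  by_cases hy : y ∈ Set.Icc (fun _ : Fin 3 => -c - 1) (fun _ => -c + 1)
  · rw [Set.indicator_of_mem hy]
    unfold fc
    have h0 := tent_nonneg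
    have h1 := tent_le
    have e1 := mul_le_one₀ (h1 (c + y 0)) (h0 (c + y 1)) (h1 (c + y 1))
    have e2 := mul_le_one₀ e1 (h0 (c + y 2)) (h1 (c + y 2))
    exact mul_le_one₀ e2 (h0 _) (h1 _)
  · rw [Set.indicator_of_notMem hy]
    have h1 : ∃ i, 1 ≤ |c + y i| := by
      by_contra hcon
      push Not at hcon
      apply hy
      rw [Set.mem_Icc]
      constructor <;> intro i <;> have := abs_lt.1 (hcon i) <;> simp only <;> linarith [this.1, this.2]
    obtain ⟨i, hi⟩ := h1
    have h2 := tent_zero hi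
    unfold fc
    fin_cases i
    · simp only [Fin.zero_eta] at h2
      rw [h2]; simp
    · simp only [Fin.mk_one] at h2
      rw [h2]; simp
    · simp only [Fin.reduceFinMk] at h2
      rw [h2]; simp

theorem box_int (c : ℝ) :
    Integrable ((Set.Icc (fun _ : Fin 3 => -c - 1) (fun _ => -c + 1)).indicator (fun _ => (1 : ℝ))) ∧
      ∫ y, (Set.Icc (fun _ : Fin 3 => -c - 1) (fun _ => -c + 1)).indicator (fun _ => (1 : ℝ)) y = 8 := by
  constructor
  · refine (integrable_indicator_iff measurableSet_Icc).2 (integrableOn_const ?_)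
    exact (isCompact_Icc.measure_lt_top).ne
  · rw [integral_indicator_const _ measurableSet_Icc, measureReal_def, Real.volume_Icc_pi_toReal]
    · simp
      norm_num
    · intro i
      simp only
      linarith

theorem fc_int (c : ℝ) : Integrable (fc c) := by
  refine (box_int c).1.mono' (fc_cont c).aestronglyMeasurable (Eventually.of_forall fun y => ?_)
  rw [Real.norm_eq_abs, abs_of_nonneg (fc_nonneg c y)]
  exact fc_le c y

theorem log_four {u : ℝ} (hu : 0 < u) : u ^ (1 / 4 : ℝ) = Real.exp (Real.log u / 4) := by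
  rw [Real.rpow_def_of_pos hu]
  congr 1
  ring

theorem fc_vanish {c : ℝ} (h : 1 ≤ |c|) (y : Fin 3 → ℝ) : fc c y = 0 := by
  by_contra hne
  have h0 : |c + y 0| < 1 := by
    by_contra h1
    apply hne
    unfold fc
    rw [tent_zero (not_lt.1 h1)]; simp
  have h1 : |c + y 1| < 1 := by
    by_contra h1
    apply hne
    unfold fc
    rw [tent_zero (not_lt.1 h1)]; simp
  have h2 : |c + y 2| < 1 := by
    by_contra h1
    apply hne
    unfold fc
    rw [tent_zero (not_lt.1 h1)]; simp
  have h3 : |c - (y 0 + y 1 + y 2)| < 1 := by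
    by_contra h1
    apply hne
    unfold fc
    rw [tent_zero (not_lt.1 h1)]; simp
  rw [abs_lt] at h0 h1 h2 h3
  rcases le_abs.1 h with h4 | h4 <;> linarith [h0.1, h0.2, h1.1, h1.2, h2.1, h2.2, h3.1, h3.2]

theorem t_VPR : S_VPR := by
  refine ⟨?_, ⟨8, by norm_num, ?_⟩, ?_, ?_, ⟨1 / 8192, by norm_num, ?_⟩⟩
  · intro u
    unfold V
    apply integral_nonneg
    intro y
    exact mul_nonneg (mul_nonneg (mul_nonneg (ph_nonneg _) (ph_nonneg _)) (ph_nonneg _)) (ph_nonneg _)
  · intro u
    rcases le_or_gt (u ^ (1 / 4 : ℝ)) 0 with h | h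
    · rw [V_zero h]
      norm_num
    · rw [V_eq (Real.exp_log h).symm, ← (box_int (Real.log (u ^ (1 / 4 : ℝ)))).2]
      exact integral_mono (fc_int _) (box_int _).1 (fc_le _)
  · intro u hu hu4
    rcases hu.eq_or_lt with h | h
    · refine V_zero ?_
      rw [← h, Real.zero_rpow (by norm_num)]
    · rw [V_eq (log_four h)]
      have h1 : Real.log u ≤ -4 := by
        rw [Real.log_le_iff_le_exp h]
        exact hu4
      have h2 : 1 ≤ |Real.log u / 4| := by
        rw [abs_of_nonpos (by linarith)]
        linarith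
      simp only [fc_vanish h2, integral_zero]
  · intro u hu
    have h : 0 < u := (Real.exp_pos 4).trans_le hu
    rw [V_eq (log_four h)]
    have h1 : 4 ≤ Real.log u := by
      rw [Real.le_log_iff_exp_le h]
      exact hu
    have h2 : 1 ≤ |Real.log u / 4| := by
      rw [abs_of_nonneg (by linarith)]
      linarith
    simp only [fc_vanish h2, integral_zero]
  · intro u hu hu1
    have h : 0 < u := (Real.exp_pos (-1)).trans_le hu
    rw [V_eq (log_four h)]
    set c : ℝ := Real.log u / 4 with hc
    have h1 : -1 ≤ Real.log u := by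
      rw [Real.le_log_iff_exp_le h]
      exact hu
    have h2 : Real.log u ≤ 0 := Real.log_nonpos h.le hu1
    have hc1 : -(1 / 4) ≤ c := by rw [hc]; linarith
    have hc2 : c ≤ 0 := by rw [hc]; linarith
    have hlow : ∀ y : Fin 3 → ℝ,
        (Set.Icc (fun _ : Fin 3 => (-(1 / 16) : ℝ)) (fun _ => 1 / 16)).indicator (fun _ => (1 / 16 : ℝ)) y ≤ fc c y := by
      intro y
      by_cases hy : y ∈ Set.Icc (fun _ : Fin 3 => (-(1 / 16) : ℝ)) (fun _ => 1 / 16)
      · rw [Set.indicator_of_mem hy]
        rw [Set.mem_Icc] at hy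
        have hy0 := hy.1 0
        have hy1 := hy.1 1
        have hy2 := hy.1 2
        have hz0 := hy.2 0
        have hz1 := hy.2 1
        have hz2 := hy.2 2
        simp only at hy0 hy1 hy2 hz0 hz1 hz2
        have ht : ∀ t : ℝ, |t| ≤ 1 / 2 → 1 / 2 ≤ tent t := by
          intro t ht
          unfold tent
          exact le_max_of_le_right (by linarith)
        have e0 := ht (c + y 0) (by rw [abs_le]; constructor <;> linarith)
        have e1 := ht (c + y 1) (by rw [abs_le]; constructor <;> linarith)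
        have e2 := ht (c + y 2) (by rw [abs_le]; constructor <;> linarith)
        have e3 := ht (c - (y 0 + y 1 + y 2)) (by rw [abs_le]; constructor <;> linarith)
        unfold fc
        calc (1 / 16 : ℝ) = 1 / 2 * (1 / 2) * (1 / 2) * (1 / 2) := by norm_num
          _ ≤ tent (c + y 0) * tent (c + y 1) * tent (c + y 2) * tent (c - (y 0 + y 1 + y 2)) := by
            gcongr
      · rw [Set.indicator_of_notMem hy]
        exact fc_nonneg c y
    have hI : Integrable ((Set.Icc (fun _ : Fin 3 => (-(1 / 16) : ℝ)) (fun _ => 1 / 16)).indicator (fun _ => (1 / 16 : ℝ))) :=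
      (integrable_indicator_iff measurableSet_Icc).2 (integrableOn_const (isCompact_Icc.measure_lt_top).ne)
    have h3 := integral_mono hI (fc_int c) hlow
    refine le_trans (le_of_eq ?_) h3
    rw [integral_indicator_const _ measurableSet_Icc, measureReal_def, Real.volume_Icc_pi_toReal]
    · simp
      norm_num
    · intro i
      simp only
      norm_num

end Pool.Agent.J4H72.HG
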